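import Pool.Agent.H23.BG.TargetsP

/-!
# Target P_CB: the number of the points in a box and the theta function
-/

set_option autoImplicit false

open NumberField NumberField.InfinitePlace

namespace Pool.Agent.H13.BR

open Pool.Agent.H25.HK Pool.Agent.H23.BG

section

variable {K : Type} [Field K] [NumberField K]

lemma qK_nonneg (y : InfinitePlace K → ℝ) (x : K) : 0 ≤ qK K y x := by
  unfold qK
  exact Finset.sum_nonneg fun v _ => by positivity

lemma qK_zero (y : InfinitePlace K → ℝ) : qK K y 0 = 0 := by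
  unfold qK
  simp

lemma qK_shift (y : InfinitePlace K → ℝ) (s : ℝ) (x : K) :
    qK K (fun v => y v + s) x = Real.exp s * qK K y x := by
  unfold qK
  rw [Finset.mul_sum]
  refine Finset.sum_congr rfl fun v _ => ?_
  rw [Real.exp_add]
  ring

lemma qK_mono {y y' : InfinitePlace K → ℝ} (h : ∀ v, y v ≤ y' v) (x : K) :
    qK K y x ≤ qK K y' x := by
  unfold qK
  refine Finset.sum_le_sum fun v _ => ?_
  have := Real.exp_le_exp.2 (h v)
  gcongr

lemma sum_mult_real : ∑ v : InfinitePlace K, (v.mult : ℝ) = Module.finrank ℚ K := by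
  have := InfinitePlace.sum_mult_eq (K := K)
  exact_mod_cast this

lemma term_sq (y : InfinitePlace K → ℝ) (x : K) (v : InfinitePlace K) :
    Real.exp (y v) * (v x) ^ 2 = (v x * Real.exp (y v / 2)) ^ 2 := by
  rw [mul_pow, ← Real.exp_nat_mul]
  push_cast
  rw [mul_div_cancel₀ (y v) (two_ne_zero)]
  ring

lemma qK_le_of_mem {M : FI K} {y : InfinitePlace K → ℝ} {x : K} (hx : x ∈ Bx K M y) :
    qK K y x ≤ Module.finrank ℚ K := by
  rw [← sum_mult_real]
  unfold qK
  refine Finset.sum_le_sum fun v _ => ?_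
  rw [mul_assoc, term_sq]
  have h0 : 0 ≤ v x * Real.exp (y v / 2) := by positivity
  have h1 := hx.2 v
  have h2 : (v x * Real.exp (y v / 2)) ^ 2 ≤ 1 := pow_le_one₀ h0 h1
  have h3 : (0 : ℝ) ≤ v.mult := Nat.cast_nonneg _
  nlinarith

lemma mem_of_qK_le {M : FI K} {y : InfinitePlace K → ℝ} {x : K} (hxM : x ∈ M)
    (hx : qK K y x ≤ 1) : x ∈ Bx K M y := by
  refine ⟨hxM, fun v => ?_⟩
  have h1 : (v.mult : ℝ) * Real.exp (y v) * (v x) ^ 2 ≤ qK K y x := by
    unfold qK
    exact Finset.single_le_sum (f := fun v : InfinitePlace K =>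
      (v.mult : ℝ) * Real.exp (y v) * (v x) ^ 2) (fun w _ => by positivity) (Finset.mem_univ v)
  rw [mul_assoc, term_sq] at h1
  have h3 : (1 : ℝ) ≤ v.mult := by exact_mod_cast v.one_le_mult
  have h0 : 0 ≤ v x * Real.exp (y v / 2) := by positivity
  nlinarith [sq_nonneg (v x * Real.exp (y v / 2))]

lemma zero_mem_Bx (M : FI K) (y : InfinitePlace K → ℝ) : (0 : K) ∈ Bx K M y :=
  ⟨M.val.zero_mem, fun v => by simp⟩

/-- the terms -/
noncomputable def gt (M : FI K) (y : InfinitePlace K → ℝ) (x : {x : K // x ∈ M}) : ℝ :=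
  Real.exp (-Real.pi * qK K y x)

lemma gt_nonneg (M : FI K) (y : InfinitePlace K → ℝ) (x : {x : K // x ∈ M}) : 0 ≤ gt M y x :=
  (Real.exp_pos _).le

/-- the box in the subtype -/
def Bs (M : FI K) (y : InfinitePlace K → ℝ) : Set {x : K // x ∈ M} := {x | x.1 ∈ Bx K M y}

lemma Bx_eq (M : FI K) (y : InfinitePlace K → ℝ) : Bx K M y = Subtype.val '' Bs M y := by
  ext x
  constructor
  · intro hx
    exact ⟨⟨x, hx.1⟩, hx, rfl⟩
  · rintro ⟨x', hx', rfl⟩
    exact hx'

lemma cb_eq (M : FI K) (y : InfinitePlace K → ℝ) : cb K M y = ((Bs M y).ncard : ℝ) := by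
  unfold cb
  rw [Bx_eq, Set.ncard_image_of_injective _ Subtype.val_injective]

lemma gt_of_mem {M : FI K} {y : InfinitePlace K → ℝ} {x : {x : K // x ∈ M}}
    (hx : x ∈ Bs M y) : Real.exp (-Real.pi * Module.finrank ℚ K) ≤ gt M y x := by
  apply Real.exp_le_exp.2
  have := qK_le_of_mem hx
  nlinarith [Real.pi_pos]

lemma Bs_finite {M : FI K} {y : InfinitePlace K → ℝ} (hs : Summable (gt M y)) :
    (Bs M y).Finite := by
  have h := hs.tendsto_cofinite_zero
  have h2 : ∀ᶠ x in Filter.cofinite, gt M y x < Real.exp (-Real.pi * Module.finrank ℚ K) :=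
    h.eventually (gt_mem_nhds (Real.exp_pos _))
  rw [Filter.eventually_cofinite] at h2
  refine h2.subset fun x hx => ?_
  simp only [Set.mem_ofPred_eq, not_lt]
  exact gt_of_mem hx

lemma cb_one_le {M : FI K} {y : InfinitePlace K → ℝ} (hf : (Bs M y).Finite) :
    1 ≤ cb K M y := by
  rw [cb_eq]
  have : 0 < (Bs M y).ncard := (Set.ncard_pos hf).2
    ⟨⟨0, M.val.zero_mem⟩, zero_mem_Bx M y⟩
  exact_mod_cast this

lemma th_lower {M : FI K} {y : InfinitePlace K → ℝ} (hs : Summable (gt M y)) :
    1 + (cb K M y - 1) * Real.exp (-Real.pi * Module.finrank ℚ K) ≤ th K M y := by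
  classical
  have hf := Bs_finite hs
  have h1 : ∑ x ∈ hf.toFinset, gt M y x ≤ th K M y :=
    hs.sum_le_tsum hf.toFinset fun x _ => gt_nonneg M y x
  set z : {x : K // x ∈ M} := ⟨0, M.val.zero_mem⟩ with hz
  have hzm : z ∈ hf.toFinset := by
    rw [Set.Finite.mem_toFinset]
    exact zero_mem_Bx M y
  rw [← Finset.add_sum_erase _ _ hzm] at h1
  have h2 : gt M y z = 1 := by
    unfold gt
    rw [hz, qK_zero]
    simp
  have h3 : (((hf.toFinset.erase z).card : ℕ) : ℝ) *
      Real.exp (-Real.pi * Module.finrank ℚ K) ≤ ∑ x ∈ hf.toFinset.erase z, gt M y x := by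
    rw [← nsmul_eq_mul]
    apply Finset.card_nsmul_le_sum
    intro x hx
    apply gt_of_mem
    have := Finset.mem_of_mem_erase hx
    rwa [Set.Finite.mem_toFinset] at this
  have h4 : (((hf.toFinset.erase z).card : ℕ) : ℝ) = cb K M y - 1 := by
    rw [Finset.card_erase_of_mem hzm, cb_eq, Set.ncard_eq_toFinset_card _ hf, Nat.cast_sub]
    · simp
    · exact Finset.card_pos.2 ⟨z, hzm⟩
  rw [h4] at h3
  linarith

lemma th_one_le {M : FI K} {y : InfinitePlace K → ℝ} (hs : Summable (gt M y)) :
    1 ≤ th K M y := by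
  have h1 := th_lower hs
  have h2 := cb_one_le (Bs_finite hs)
  have h3 := Real.exp_pos (-Real.pi * Module.finrank ℚ K)
  nlinarith

lemma th_anti (hTH : T_TH) {M : FI K} (hM : M ≠ 0) {y y' : InfinitePlace K → ℝ}
    (h : ∀ v, y v ≤ y' v) : th K M y' ≤ th K M y := by
  unfold th
  refine Summable.tsum_le_tsum (fun x => ?_) (hTH K M hM y').1 (hTH K M hM y).1
  apply Real.exp_le_exp.2
  have := qK_mono h x.1
  nlinarith [Real.pi_pos]

lemma cv_inv_nonneg (M : FI K) : 0 ≤ (cv K M)⁻¹ := by
  rw [inv_nonneg]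
  unfold cv
  have : (0 : ℝ) ≤ (FractionalIdeal.absNorm M : ℝ) := by
    exact_mod_cast FractionalIdeal.absNorm_nonneg M
  positivity

lemma th_scale (hTH : T_TH) (hDU : T_DU) {M : FI K} (hM : M ≠ 0)
    (y : InfinitePlace K → ℝ) {s : ℝ} (hs : 0 ≤ s) :
    th K M y ≤ Real.exp (Module.finrank ℚ K * s / 2) * th K M (fun v => y v + s) := by
  rw [(hTH K M hM y).2, (hTH K M hM fun v => y v + s).2]
  have h1 : th K (du K M) (-y) ≤ th K (du K M) (-fun v => y v + s) :=
    th_anti hTH (hDU K M hM).1 fun v => by simp [hs]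
  have e1 : -(∑ v : InfinitePlace K, (v.mult : ℝ) * (y v + s)) / 2 =
      -(∑ v : InfinitePlace K, (v.mult : ℝ) * y v) / 2 - Module.finrank ℚ K * s / 2 := by
    rw [← sum_mult_real]
    simp_rw [mul_add]
    rw [Finset.sum_add_distrib, ← Finset.sum_mul]
    ring
  rw [e1, ← mul_assoc, ← mul_assoc, ← Real.exp_add]
  have e2 : (Module.finrank ℚ K : ℝ) * s / 2 +
      (-(∑ v : InfinitePlace K, (v.mult : ℝ) * y v) / 2 - Module.finrank ℚ K * s / 2) =
      -(∑ v : InfinitePlace K, (v.mult : ℝ) * y v) / 2 := by ring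
  rw [e2]
  exact mul_le_mul_of_nonneg_left h1 (mul_nonneg (Real.exp_pos _).le (cv_inv_nonneg M))

lemma th_le_cb (hTH : T_TH) (hDU : T_DU) {M : FI K} (hM : M ≠ 0)
    (y : InfinitePlace K → ℝ) {n : ℕ} (hn : Module.finrank ℚ K = n) :
    th K M y ≤ 2 * Real.exp ((n : ℝ) * (n + 1) / 2) * cb K M y := by
  classical
  have hf := Bs_finite (hTH K M hM y).1
  set s : ℝ := n + 1 with hs
  have hs0 : 0 ≤ s := by positivity
  have hsc := th_scale hTH hDU hM y hs0
  rw [hn] at hsc
  -- the bound at `y + s`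
  set a : ℝ := Real.exp (-Real.pi * Real.exp s / 2) with ha
  have hpt : ∀ x : {x : K // x ∈ M}, Real.exp (-Real.pi * qK K (fun v => y v + s) x) ≤
      (if x ∈ hf.toFinset then 1 else 0) +
        a * Real.exp (-Real.pi * qK K (fun v => y v + (s - Real.log 2)) x) := by
    intro x
    have h0 : 0 ≤ a * Real.exp (-Real.pi * qK K (fun v => y v + (s - Real.log 2)) x) := by
      positivity
    by_cases hx : x ∈ hf.toFinset
    · rw [if_pos hx]
      have : Real.exp (-Real.pi * qK K (fun v => y v + s) x) ≤ 1 := by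
        apply Real.exp_le_one_iff.2
        have := qK_nonneg (fun v => y v + s) x.1
        nlinarith [Real.pi_pos]
      linarith
    · rw [if_neg hx, zero_add, ha, ← Real.exp_add]
      apply Real.exp_le_exp.2
      have hq : 1 < qK K y x := by
        by_contra hcon
        push Not at hcon
        apply hx
        rw [Set.Finite.mem_toFinset]
        exact mem_of_qK_le x.2 hcon
      rw [qK_shift, qK_shift, Real.exp_sub, Real.exp_log (by norm_num)]
      have h3 := Real.exp_pos s
      have h4 : Real.exp s * 1 < Real.exp s * qK K y x := mul_lt_mul_of_pos_left hq h3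
      nlinarith [Real.pi_pos]
  have hsum1 : HasSum (fun x : {x : K // x ∈ M} => if x ∈ hf.toFinset then (1 : ℝ) else 0)
      (∑ x ∈ hf.toFinset, if x ∈ hf.toFinset then (1 : ℝ) else 0) :=
    hasSum_sum_of_ne_finset_zero fun x hx => by rw [if_neg hx]
  have hcard : (∑ x ∈ hf.toFinset, if x ∈ hf.toFinset then (1 : ℝ) else 0) = cb K M y := by
    rw [Finset.sum_ite_mem, Finset.inter_self, Finset.sum_const, cb_eq,
      Set.ncard_eq_toFinset_card _ hf]
    simp
  have hsum2 := (hTH K M hM fun v => y v + (s - Real.log 2)).1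
  have h5 : th K M (fun v => y v + s) ≤ cb K M y + a * th K M (fun v => y v + (s - Real.log 2)) := by
    unfold th
    rw [← hcard, ← hsum1.tsum_eq, ← tsum_mul_left, ← hsum1.summable.tsum_add (hsum2.mul_left a)]
    exact Summable.tsum_le_tsum hpt (hTH K M hM fun v => y v + s).1
      (hsum1.summable.add (hsum2.mul_left a))
  have h6 : th K M (fun v => y v + (s - Real.log 2)) ≤
      Real.exp (n * Real.log 2 / 2) * th K M (fun v => y v + s) := by
    have := th_scale hTH hDU hM (fun v => y v + (s - Real.log 2))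
      (Real.log_nonneg (by norm_num : (1 : ℝ) ≤ 2))
    rw [hn] at this
    convert this using 4
    ring
  have h7 : a * Real.exp (n * Real.log 2 / 2) ≤ 1 / 2 := by
    have e : (1 / 2 : ℝ) = Real.exp (-Real.log 2) := by
      rw [Real.exp_neg, Real.exp_log (by norm_num)]
      norm_num
    rw [e, ha, ← Real.exp_add]
    apply Real.exp_le_exp.2
    have h8 : (n : ℝ) + 2 ≤ Real.exp s := by
      have := Real.add_one_le_exp s
      linarith
    have h9 : Real.log 2 ≤ Real.pi := by
      have := Real.log_two_lt_d9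
      have := Real.pi_gt_three
      linarith
    have h10 : Real.log 2 * ((n : ℝ) + 2) ≤ Real.pi * Real.exp s := by
      apply mul_le_mul h9 h8 (by positivity) Real.pi_pos.le
    linarith
  have hth0 : 0 ≤ th K M (fun v => y v + s) :=
    le_trans zero_le_one (th_one_le (hTH K M hM fun v => y v + s).1)
  have h11 : th K M (fun v => y v + s) ≤ 2 * cb K M y := by
    have h12 : a * th K M (fun v => y v + (s - Real.log 2)) ≤
        a * (Real.exp (n * Real.log 2 / 2) * th K M (fun v => y v + s)) :=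
      mul_le_mul_of_nonneg_left h6 (Real.exp_pos _).le
    have h13 : a * Real.exp (n * Real.log 2 / 2) * th K M (fun v => y v + s) ≤
        1 / 2 * th K M (fun v => y v + s) := mul_le_mul_of_nonneg_right h7 hth0
    linarith
  calc th K M y ≤ Real.exp ((n : ℝ) * s / 2) * th K M (fun v => y v + s) := hsc
    _ ≤ Real.exp ((n : ℝ) * s / 2) * (2 * cb K M y) :=
        mul_le_mul_of_nonneg_left h11 (Real.exp_pos _).le
    _ = 2 * Real.exp ((n : ℝ) * (n + 1) / 2) * cb K M y := by rw [hs]; ring

end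

/-- Target P_CB. -/
theorem pf_P_CB (hTH : T_TH) (hDU : T_DU) : P_CB := by
  intro n hn
  have hA1 : 1 ≤ Real.exp (Real.pi * n) := Real.one_le_exp (by positivity)
  have hB1 : 1 ≤ Real.exp (n * Real.log 4) :=
    Real.one_le_exp (mul_nonneg (Nat.cast_nonneg _) (Real.log_nonneg (by norm_num)))
  have hD1 : 1 ≤ 2 * Real.exp ((n : ℝ) * (n + 1) / 2) := by
    have : 1 ≤ Real.exp ((n : ℝ) * (n + 1) / 2) := Real.one_le_exp (by positivity)
    linarith
  set A := Real.exp (Real.pi * n) with hA
  set B := Real.exp (n * Real.log 4) with hB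
  set D := 2 * Real.exp ((n : ℝ) * (n + 1) / 2) with hD
  have hAB : 1 ≤ A * B := one_le_mul_of_one_le_of_one_le hA1 hB1
  have hBD : 1 ≤ B * D := one_le_mul_of_one_le_of_one_le hB1 hD1
  refine ⟨A * B * D, one_le_mul_of_one_le_of_one_le hAB hD1, ?_⟩
  intro K _ _ hK M y hM
  have hs := (hTH K M hM y).1
  have hAC : A ≤ A * B * D := by
    rw [mul_assoc]
    exact le_mul_of_one_le_right (by linarith) hBD
  have hDC : D ≤ A * B * D := le_mul_of_one_le_left (by linarith) hAB
  have key : ∀ y : InfinitePlace K → ℝ, cb K M y - 1 ≤ A * (th K M y - 1) ∧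
      cb K M y ≤ A * th K M y := by
    intro y
    have h1 := th_lower (hTH K M hM y).1
    rw [hK] at h1
    have e : A * Real.exp (-Real.pi * n) = 1 := by
      rw [hA, ← Real.exp_add]
      simp
    have h2 : A * ((cb K M y - 1) * Real.exp (-Real.pi * n)) ≤ A * (th K M y - 1) :=
      mul_le_mul_of_nonneg_left (by linarith) (by linarith)
    have h3 : A * ((cb K M y - 1) * Real.exp (-Real.pi * n)) = cb K M y - 1 := by
      rw [mul_left_comm, e, mul_one]
    constructor
    · linarith
    · linarith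
  have hth1 := th_one_le hs
  have hcb1 := cb_one_le (Bs_finite hs)
  have hth := th_le_cb hTH hDU hM y hK
  refine ⟨?_, hcb1, ?_, ?_, ?_, ?_, ?_⟩
  · rw [Bx_eq]
    exact (Bs_finite hs).image _
  · refine (key y).1.trans ?_
    exact mul_le_mul_of_nonneg_right hAC (by linarith)
  · refine (key y).2.trans ?_
    exact mul_le_mul_of_nonneg_right hAC (by linarith)
  · refine hth.trans ?_
    exact mul_le_mul_of_nonneg_right hDC (by linarith)
  · rw [(hTH K M hM y).2, div_eq_mul_inv]
    apply le_mul_of_one_le_right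
    · exact mul_nonneg (Real.exp_pos _).le (cv_inv_nonneg M)
    · exact th_one_le (hTH K (du K M) (hDU K M hM).1 (-y)).1
  · have h1 := (key fun v => y v - 2 * Real.log 4).2
    have h2 := th_scale hTH hDU hM (fun v => y v - 2 * Real.log 4)
      (mul_nonneg zero_le_two (Real.log_nonneg (by norm_num : (1 : ℝ) ≤ 4)))
    have e1 : (fun v : InfinitePlace K => y v - 2 * Real.log 4 + 2 * Real.log 4) = y := by
      funext v
      ring
    rw [e1, hK] at h2
    have e2 : (n : ℝ) * (2 * Real.log 4) / 2 = n * Real.log 4 := by ring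
    rw [e2, ← hB] at h2
    calc cb K M (fun v => y v - 2 * Real.log 4)
        ≤ A * th K M (fun v => y v - 2 * Real.log 4) := h1
      _ ≤ A * (B * th K M y) := mul_le_mul_of_nonneg_left h2 (by linarith)
      _ ≤ A * (B * (D * cb K M y)) := by
          apply mul_le_mul_of_nonneg_left _ (by linarith)
          exact mul_le_mul_of_nonneg_left hth (by linarith)
      _ = A * B * D * cb K M y := by ring

end Pool.Agent.H13.BR
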