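import Pool.Agent.H23.BG.TargetsW

/-!
# Target W_NV: the auxiliary polynomial is not zero
-/

set_option autoImplicit false

open Polynomial

namespace Pool.Agent.H13.BR

/-- Injectivity of the degrees. -/
theorem deg_inj (d c m i i' j j' κ κ' : ℕ) (hd : 1 ≤ d) (hm : 1 ≤ m)
    (hco : Nat.Coprime m d) (hi : i < d) (hi' : i' < d) (hκ : κ + m < c) (hκ' : κ' + m < c)
    (h : κ + c * i * m + j * (d * c + 1) = κ' + c * i' * m + j' * (d * c + 1)) :
    i = i' ∧ j = j' := by
  have h1 : ((d : ℤ) * c + 1) * ((i * m + j * d : ℤ) - (i' * m + j' * d)) =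
      (d * κ' - i' * m : ℤ) - (d * κ - i * m) := by
    have h' : (κ : ℤ) + c * i * m + j * (d * c + 1) = κ' + c * i' * m + j' * (d * c + 1) := by
      exact_mod_cast h
    linear_combination (d : ℤ) * h'
  have hdz : (1 : ℤ) ≤ d := by exact_mod_cast hd
  have hmz : (1 : ℤ) ≤ m := by exact_mod_cast hm
  have hiz : (i : ℤ) + 1 ≤ d := by exact_mod_cast hi
  have hiz' : (i' : ℤ) + 1 ≤ d := by exact_mod_cast hi'
  have hκz : (κ : ℤ) + m + 1 ≤ c := by exact_mod_cast hκ
  have hκz' : (κ' : ℤ) + m + 1 ≤ c := by exact_mod_cast hκ'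
  have e1 : (d : ℤ) * κ ≤ d * (c - m - 1) := by
    apply mul_le_mul_of_nonneg_left (by linarith) (by linarith)
  have e2 : (d : ℤ) * κ' ≤ d * (c - m - 1) := by
    apply mul_le_mul_of_nonneg_left (by linarith) (by linarith)
  have e3 : (i : ℤ) * m ≤ (d - 1) * m := by
    apply mul_le_mul_of_nonneg_right (by linarith) (by linarith)
  have e4 : (i' : ℤ) * m ≤ (d - 1) * m := by
    apply mul_le_mul_of_nonneg_right (by linarith) (by linarith)
  have e5 : (0 : ℤ) ≤ d * κ := by positivity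
  have e6 : (0 : ℤ) ≤ d * κ' := by positivity
  have e7 : (0 : ℤ) ≤ i * m := by positivity
  have e8 : (0 : ℤ) ≤ i' * m := by positivity
  have hQ : (0 : ℤ) < (d : ℤ) * c + 1 := by positivity
  have h2 : (i * m + j * d : ℤ) - (i' * m + j' * d) = 0 := by
    by_contra hne
    rcases lt_or_gt_of_ne hne with hlt | hgt
    · have : (i * m + j * d : ℤ) - (i' * m + j' * d) ≤ -1 := by omega
      have h3 : ((d : ℤ) * c + 1) * ((i * m + j * d : ℤ) - (i' * m + j' * d)) ≤
          ((d : ℤ) * c + 1) * (-1) := mul_le_mul_of_nonneg_left this hQ.le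
      rw [h1] at h3
      nlinarith
    · have : (1 : ℤ) ≤ (i * m + j * d : ℤ) - (i' * m + j' * d) := by omega
      have h3 : ((d : ℤ) * c + 1) * 1 ≤
          ((d : ℤ) * c + 1) * ((i * m + j * d : ℤ) - (i' * m + j' * d)) :=
        mul_le_mul_of_nonneg_left this hQ.le
      rw [h1] at h3
      nlinarith
  have h4 : i * m + j * d = i' * m + j' * d := by
    have : (i * m + j * d : ℤ) = (i' * m + j' * d) := by linarith
    exact_mod_cast this
  have h5 : i * m ≡ i' * m [MOD d] := by
    have : (i * m + j * d) % d = (i' * m + j' * d) % d := by rw [h4]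
    rw [Nat.add_mul_mod_self_right, Nat.add_mul_mod_self_right] at this
    exact this
  have h6 : i ≡ i' [MOD d] := Nat.ModEq.cancel_right_of_coprime (by
    rw [Nat.gcd_comm]; exact hco) h5
  have h7 : i = i' := by
    have := h6
    unfold Nat.ModEq at this
    rwa [Nat.mod_eq_of_lt hi, Nat.mod_eq_of_lt hi'] at this
  subst h7
  refine ⟨rfl, ?_⟩
  have h8 : j * d = j' * d := by omega
  exact Nat.eq_of_mul_eq_mul_right (by omega) h8

theorem pf_W_NV : Pool.Agent.H23.BG.W_NV := by
  intro F _ f d c K hd hf hco k hk hsum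
  by_contra hcon
  push Not at hcon
  obtain ⟨i₀, j₀, hij⟩ := hcon
  have hf0 : f ≠ 0 := by
    intro h
    rw [h, natDegree_zero] at hf
    omega
  set T : Fin d × Fin K → F[X] := fun p =>
    k p.1 p.2 * (f ^ c) ^ (p.1 : ℕ) * X ^ ((p.2 : ℕ) * (d * c + 1)) with hT
  set D : Fin d × Fin K → ℕ := fun p =>
    (k p.1 p.2).natDegree + c * (p.1 : ℕ) * f.natDegree + (p.2 : ℕ) * (d * c + 1) with hD
  have hTne : ∀ p, k p.1 p.2 ≠ 0 → T p ≠ 0 := by
    intro p hp
    exact mul_ne_zero (mul_ne_zero hp (pow_ne_zero _ (pow_ne_zero _ hf0)))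
      (pow_ne_zero _ X_ne_zero)
  have hdeg : ∀ p, k p.1 p.2 ≠ 0 → (T p).natDegree = D p := by
    intro p hp
    simp only [hT, hD]
    rw [natDegree_mul (mul_ne_zero hp (pow_ne_zero _ (pow_ne_zero _ hf0)))
      (pow_ne_zero _ X_ne_zero), natDegree_mul hp (pow_ne_zero _ (pow_ne_zero _ hf0)),
      natDegree_pow, natDegree_pow, natDegree_X_pow]
    ring
  have hsum' : ∑ p : Fin d × Fin K, T p = 0 := by
    rw [Fintype.sum_prod_type]
    exact hsum
  classical
  obtain ⟨p₀, hp₀, hmax⟩ := Finset.exists_max_image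
    (Finset.univ.filter fun p : Fin d × Fin K => k p.1 p.2 ≠ 0) D
    ⟨(i₀, j₀), by simpa using hij⟩
  rw [Finset.mem_filter] at hp₀
  have hp₀' := hp₀.2
  have hc : (∑ p : Fin d × Fin K, T p).coeff (D p₀) = (T p₀).coeff (D p₀) := by
    rw [finsetSum_coeff]
    apply Finset.sum_eq_single p₀
    · intro p _ hpne
      by_cases hp : k p.1 p.2 = 0
      · simp [hT, hp]
      · have hle : D p ≤ D p₀ := hmax p (by simpa using hp)
        have hne : D p ≠ D p₀ := by
          intro heq
          apply hpne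
          have := deg_inj d c f.natDegree p.1 p₀.1 p.2 p₀.2 _ _ hd hf hco p.1.2 p₀.1.2
            (hk p.1 p.2) (hk p₀.1 p₀.2) heq
          exact Prod.ext (Fin.ext this.1) (Fin.ext this.2)
        apply coeff_eq_zero_of_natDegree_lt
        rw [hdeg p hp]
        omega
    · intro h
      exact absurd (Finset.mem_univ _) h
  rw [hsum', coeff_zero, ← hdeg p₀ hp₀', coeff_natDegree] at hc
  exact hTne p₀ hp₀' (leadingCoeff_eq_zero.mp hc.symm)

end Pool.Agent.H13.BR
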